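import Pool.Agent.Y645.UL.Bas

/-!
# From the small to the big base field (job UL-B)
-/

set_option autoImplicit false

namespace Pool.Agent.Y688.UL

open MvPolynomial Module Pool.Agent.Y645.UL

/-- extension of an exponent vector by zero -/
def bet (ι κ : Type) : (ι → ℤ) →ₗ[ℤ] (ι ⊕ κ → ℤ) where
  toFun a := Sum.elim a 0
  map_add' a b := by
    funext j
    rcases j with j | j
    · rfl
    · simp
  map_smul' c a := by
    funext j
    rcases j with j | j
    · rfl
    · simp

theorem lam_comap {G ι κ : Type} [CommGroup G] [Fintype ι] [Fintype κ] (x : ι → G) (c : κ → G) :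
    (Lam (Sum.elim x c)).comap (bet ι κ) = Lam x := by
  ext a
  rw [Submodule.mem_comap, mem_Lam, mem_Lam]
  show ∏ j, (Sum.elim x c j) ^ (Sum.elim a (0 : κ → ℤ) j) = 1 ↔ _
  rw [Fintype.prod_sum_type]
  simp

theorem lam_le {k L L' N : Type} [Field k] [Field L] [Field L'] [Algebra k L] [Algebra k L']
    [Fintype N] {w : N → Lˣ} {x : N → L'ˣ} (h : Spc k w x) : Lam w ≤ Lam x := by
  intro a ha
  rw [mem_Lam] at ha ⊢
  have key : ∀ {F : Type} [Field F] (y : N → Fˣ), (∏ j, y j ^ a j = 1) ↔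
      ∏ j, (y j : F) ^ (a j).toNat - ∏ j, (y j : F) ^ (-a j).toNat = 0 := by
    intro F _ y
    have e1 : (∏ j, y j ^ a j) = (∏ j, y j ^ (a j).toNat) * (∏ j, y j ^ (-a j).toNat)⁻¹ := by
      rw [← Finset.prod_inv_distrib, ← Finset.prod_mul_distrib]
      refine Finset.prod_congr rfl fun j _ => ?_
      have e2 : a j = ((a j).toNat : ℤ) - ((-a j).toNat : ℤ) := by omega
      conv_lhs => rw [e2]
      rw [zpow_sub, zpow_natCast, zpow_natCast]
    rw [e1, mul_inv_eq_one, sub_eq_zero, ← Units.val_inj]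
    push_cast
    rfl
  rw [key] at ha ⊢
  have h1 := h (∏ j, X j ^ (a j).toNat - ∏ j, X j ^ (-a j).toNat) (by
    simp only [map_sub, map_prod, map_pow, aeval_X]
    exact ha)
  simp only [map_sub, map_prod, map_pow, aeval_X] at h1
  exact h1

section tower

variable {k₀ k L ι κ : Type} [Field k₀] [Field k] [Field L] [Algebra k₀ k] [Algebra k L]
  [Algebra k₀ L] [IsScalarTower k₀ k L]

/-- the enlarged point -/
def enl (x : ι → Lˣ) (c : κ → kˣ) : ι ⊕ κ → Lˣ :=
  Sum.elim x (fun i => Units.map (algebraMap k L).toMonoidHom (c i))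

/-- substitution of the constants -/
noncomputable def sbs (ι : Type) (c : κ → kˣ) (f : MvPolynomial (ι ⊕ κ) k₀) : MvPolynomial ι k :=
  aeval (Sum.elim X (fun i => C (c i : k))) f

theorem aeval_enl (x : ι → Lˣ) (c : κ → kˣ) (f : MvPolynomial (ι ⊕ κ) k₀) :
    aeval (fun j => (enl x c j : L)) f = aeval (fun j => (x j : L)) (sbs ι c f) := by
  have h : ((aeval (fun j => (x j : L)) : MvPolynomial ι k →ₐ[k] L).restrictScalars k₀).comp
      (aeval (Sum.elim X (fun i => C (c i : k))) : MvPolynomial (ι ⊕ κ) k₀ →ₐ[k₀] _) =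
      aeval (fun j => (enl x c j : L)) := by
    apply MvPolynomial.algHom_ext
    intro j
    rcases j with j | j
    · simp [enl]
    · simp [enl]
  exact (DFunLike.congr_fun h f).symm

end tower

theorem t_B : S_TD1 → S_TD2 → S_B := by
  intro hTD1 hTD2 k₀ k _ _ _ hPP ι _ L _ _ w
  let _ : Algebra k₀ L := ((algebraMap k L).comp (algebraMap k₀ k)).toAlgebra
  have _ : IsScalarTower k₀ k L := IsScalarTower.of_algebraMap_eq' rfl
  obtain ⟨κ, _, c, hc⟩ := hTD1 k₀ k L ι w
  obtain ⟨g₀, hg₀, hg⟩ := hPP (ι ⊕ κ) L (enl w c)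
  refine ⟨sbs ι c g₀, ?_, ?_⟩
  · rw [← aeval_enl]
    exact hg₀
  · intro L' _ _ x hs hlt
    let _ : Algebra k₀ L' := ((algebraMap k L').comp (algebraMap k₀ k)).toAlgebra
    have _ : IsScalarTower k₀ k L' := IsScalarTower.of_algebraMap_eq' rfl
    have hs' : Spc k₀ (enl w c) (enl x c) := by
      intro f hf
      rw [aeval_enl] at hf ⊢
      exact hs _ hf
    have hc2 := hTD2 k₀ k L' ι x κ c
    have h1 : tdu k₀ (enl w c) ≤ tdu k₀ c + tdu k w := hc
    have h2 : tdu k₀ c + tdu k x ≤ tdu k₀ (enl x c) := hc2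
    have h3 := drop (lam_le hs') (bet ι κ)
    have e1 : (Lam (enl w c)).comap (bet ι κ) = Lam w := lam_comap _ _
    have e2 : (Lam (enl x c)).comap (bet ι κ) = Lam x := lam_comap _ _
    rw [e1, e2] at h3
    have m1 := mrk_add (enl w c)
    have m2 := mrk_add (enl x c)
    have m3 := mrk_add w
    have m4 := mrk_add x
    have h4 := hg L' (enl x c) hs' (by omega)
    rw [aeval_enl] at h4
    exact h4

end Pool.Agent.Y688.UL
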